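import Pool.Agent.H52.PH.Defs

open MeasureTheory Set Metric Filter Topology ContDiff Complex
open scoped ENNReal ComplexConjugate Convolution

namespace Pool.Agent.H12.PH

open Pool.Agent.H52.PH ContinuousLinearMap

set_option linter.unusedSectionVars false

variable {F : Type*} [NormedAddCommGroup F] [NormedSpace ℝ F]

/-- Young's inequality for a probability density. -/
theorem young_enorm {q : ℝ≥0∞} (hq : 1 ≤ q) (hq' : q ≠ ⊤) {ρ : ℂ → ℝ} (hρc : Continuous ρ)
    (hρ0 : ∀ x, 0 ≤ ρ x) (hρi : Integrable ρ) (hρ1 : ∫ x, ρ x = 1) {f : ℂ → F}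
    (hf : AEStronglyMeasurable f volume) :
    eLpNorm (ρ ⋆[lsmul ℝ ℝ, volume] f) q volume ≤ eLpNorm f q volume := by
  -- WLOG `f` strongly measurable
  obtain ⟨f', hf'm, hff'⟩ := hf
  have hconv : (ρ ⋆[lsmul ℝ ℝ, volume] f) = (ρ ⋆[lsmul ℝ ℝ, volume] f') :=
    convolution_congr _ (Filter.EventuallyEq.refl _ _) hff'
  rw [hconv, eLpNorm_congr_ae hff']
  have hq0 : q ≠ 0 := (lt_of_lt_of_le one_pos hq).ne'
  have hqpos : 0 < q.toReal := ENNReal.toReal_pos hq0 hq'
  rw [eLpNorm_eq_lintegral_rpow_enorm_toReal hq0 hq', eLpNorm_eq_lintegral_rpow_enorm_toReal hq0 hq']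
  refine ENNReal.rpow_le_rpow ?_ (by positivity)
  set w : ℂ → ℝ≥0∞ := fun t => ENNReal.ofReal (ρ t) with hw
  have hwm : Measurable w := (ENNReal.measurable_ofReal.comp hρc.measurable)
  set ν : Measure ℂ := volume.withDensity w with hν
  have hprob : IsProbabilityMeasure ν := by
    constructor
    rw [hν, withDensity_apply _ MeasurableSet.univ, Measure.restrict_univ, hw,
      ← ofReal_integral_eq_lintegral_ofReal hρi (ae_of_all _ hρ0), hρ1, ENNReal.ofReal_one]
  have key : ∀ x : ℂ, ‖(ρ ⋆[lsmul ℝ ℝ, volume] f') x‖ₑ ^ q.toReal ≤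
      ∫⁻ t, ‖f' (x - t)‖ₑ ^ q.toReal ∂ν := by
    intro x
    have hfx : AEStronglyMeasurable (fun t => f' (x - t)) ν :=
      (hf'm.comp_measurable (measurable_const.sub measurable_id)).aestronglyMeasurable
    have h1 : ‖(ρ ⋆[lsmul ℝ ℝ, volume] f') x‖ₑ ≤ eLpNorm (fun t => f' (x - t)) 1 ν := by
      have hm2 : Measurable (fun t => ‖f' (x - t)‖ₑ) :=
        (hf'm.comp_measurable (measurable_const.sub measurable_id)).enorm
      rw [convolution_def, eLpNorm_one_eq_lintegral_enorm, hν,
        lintegral_withDensity_eq_lintegral_mul _ hwm hm2]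
      refine (enorm_integral_le_lintegral_enorm _).trans (le_of_eq ?_)
      refine lintegral_congr fun t => ?_
      simp only [lsmul_apply, enorm_smul, Pi.mul_apply, hw]
      rw [Real.enorm_of_nonneg (hρ0 t)]
    have h2 := h1.trans (eLpNorm_le_eLpNorm_of_exponent_le hq hfx)
    rw [eLpNorm_eq_lintegral_rpow_enorm_toReal hq0 hq'] at h2
    have h3 := ENNReal.rpow_le_rpow h2 hqpos.le
    rwa [← ENNReal.rpow_mul, one_div, inv_mul_cancel₀ hqpos.ne', ENNReal.rpow_one] at h3
  calc ∫⁻ x, ‖(ρ ⋆[lsmul ℝ ℝ, volume] f') x‖ₑ ^ q.toReal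
      ≤ ∫⁻ x, (∫⁻ t, ‖f' (x - t)‖ₑ ^ q.toReal ∂ν) := lintegral_mono key
    _ = ∫⁻ t, (∫⁻ x, ‖f' (x - t)‖ₑ ^ q.toReal) ∂ν := by
        refine lintegral_lintegral_swap ?_
        refine Measurable.aemeasurable ?_
        exact ((hf'm.comp_measurable (measurable_fst.sub measurable_snd)).enorm).pow_const _
    _ = ∫⁻ t, (∫⁻ x, ‖f' x‖ₑ ^ q.toReal) ∂ν := by
        refine lintegral_congr fun t => ?_
        exact lintegral_sub_right_eq_self (fun x => ‖f' x‖ₑ ^ q.toReal) t
    _ = ∫⁻ x, ‖f' x‖ₑ ^ q.toReal := by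
        rw [lintegral_const, measure_univ, mul_one]


/-- A sequence of bump functions shrinking to `0`. -/
noncomputable def bump (n : ℕ) : ContDiffBump (0 : ℂ) where
  rIn := 1 / (2 * ((n : ℝ) + 1))
  rOut := 1 / ((n : ℝ) + 1)
  rIn_pos := by positivity
  rIn_lt_rOut := by
    apply one_div_lt_one_div_of_lt
    · positivity
    · have : (0 : ℝ) < (n : ℝ) + 1 := by positivity
      linarith

theorem bump_rOut (n : ℕ) : (bump n).rOut = 1 / ((n : ℝ) + 1) := rfl

/-- The mollifier. -/
noncomputable def rho (n : ℕ) : ℂ → ℝ := (bump n).normed volume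

theorem rho_nonneg (n : ℕ) (x : ℂ) : 0 ≤ rho n x := (bump n).nonneg_normed x

theorem rho_contDiff (n : ℕ) : ContDiff ℝ ∞ (rho n) := (bump n).contDiff_normed

theorem rho_cont (n : ℕ) : Continuous (rho n) := (bump n).continuous_normed

theorem rho_integrable (n : ℕ) : Integrable (rho n) := (bump n).integrable_normed

theorem rho_integral (n : ℕ) : ∫ x, rho n x = 1 := (bump n).integral_normed

theorem rho_compact (n : ℕ) : HasCompactSupport (rho n) := (bump n).hasCompactSupport_normed

theorem rho_tsupport (n : ℕ) : tsupport (rho n) = closedBall (0 : ℂ) (1 / ((n : ℝ) + 1)) := by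
  have := (bump n).tsupport_normed_eq (μ := (volume : Measure ℂ))
  rw [bump_rOut] at this
  exact this

theorem rho_zero {n : ℕ} {x : ℂ} (hx : 1 / ((n : ℝ) + 1) < ‖x‖) : rho n x = 0 := by
  by_contra h
  have h1 : x ∈ tsupport (rho n) := subset_tsupport _ h
  rw [rho_tsupport, mem_closedBall, dist_zero_right] at h1
  linarith

theorem rho_conv_exists {f : ℂ → F} (hf : LocallyIntegrable f volume) (n : ℕ) :
    ConvolutionExists (rho n) f (lsmul ℝ ℝ) volume :=
  (rho_compact n).convolutionExists_left _ (rho_cont n) hf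

theorem rho_conv_cont {f : ℂ → F} (hf : LocallyIntegrable f volume) (n : ℕ) :
    Continuous (rho n ⋆[lsmul ℝ ℝ, volume] f) :=
  (rho_compact n).continuous_convolution_left _ (rho_cont n) hf

/-- Mollification converges uniformly, hence in `L^q`, for continuous compactly supported
functions. -/
theorem moll_cont [CompleteSpace F] {q : ℝ≥0∞} {h : ℂ → F} (hc : Continuous h) (hs : HasCompactSupport h) :
    Tendsto (fun n => eLpNorm (fun z => (rho n ⋆[lsmul ℝ ℝ, volume] h) z - h z) q volume)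
      atTop (𝓝 0) := by
  have huc : UniformContinuous h := hs.uniformContinuous_of_continuous hc
  set B : Set ℂ := cthickening 1 (tsupport h) with hB
  have hBc : IsCompact B := hs.isCompact.cthickening
  have hBfin : volume B < ⊤ := hBc.measure_lt_top
  -- support
  have hsupp : ∀ n : ℕ, Function.support (fun z => (rho n ⋆[lsmul ℝ ℝ, volume] h) z - h z) ⊆ B := by
    intro n z hz
    by_contra hzB
    apply hz
    have hz2 : ∀ y : ℂ, ‖y‖ ≤ 1 → h (z - y) = 0 := by
      intro y hy
      by_contra hne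
      apply hzB
      have h1 : z - y ∈ tsupport h := subset_tsupport _ hne
      refine mem_cthickening_of_dist_le z (z - y) 1 _ h1 ?_
      rw [dist_eq_norm]; simpa using hy
    have h0 : h z = 0 := by simpa using hz2 0 (by simp)
    simp only [h0, sub_zero]
    rw [convolution_def]
    refine integral_eq_zero_of_ae (ae_of_all _ fun t => ?_)
    simp only [lsmul_apply, Pi.zero_apply]
    by_cases ht : ‖t‖ ≤ 1
    · rw [hz2 t ht, smul_zero]
    · rw [rho_zero, zero_smul]
      push Not at ht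
      refine lt_of_le_of_lt ?_ ht
      rw [div_le_one (by positivity)]
      have : (0 : ℝ) ≤ n := Nat.cast_nonneg n
      linarith
  rw [ENNReal.tendsto_nhds_zero]
  intro ε hε
  -- choose η with η * vol(B)^{1/q} ≤ ε
  obtain ⟨η, hη, hηε⟩ : ∃ η : ℝ, 0 < η ∧ (volume B) ^ (q.toReal⁻¹) * ENNReal.ofReal η ≤ ε := by
    have hfin : (volume B) ^ (q.toReal⁻¹) ≠ ⊤ :=
      (ENNReal.rpow_lt_top_of_nonneg (by positivity) hBfin.ne).ne
    have ht : Tendsto (fun η : ℝ => (volume B) ^ (q.toReal⁻¹) * ENNReal.ofReal η) (𝓝[>] 0)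
        (𝓝 ((volume B) ^ (q.toReal⁻¹) * ENNReal.ofReal 0)) := by
      refine ENNReal.Tendsto.const_mul ?_ (Or.inr hfin)
      exact (ENNReal.continuous_ofReal.tendsto 0).mono_left nhdsWithin_le_nhds
    rw [ENNReal.ofReal_zero, mul_zero] at ht
    have h1 := (ENNReal.tendsto_nhds_zero.1 ht) ε hε
    obtain ⟨η, h2, h3⟩ := (h1.and self_mem_nhdsWithin).exists
    exact ⟨η, h3, h2⟩
  obtain ⟨δ, hδ, hδη⟩ := Metric.uniformContinuous_iff.1 huc η hη
  obtain ⟨N, hN⟩ := exists_nat_one_div_lt hδ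
  filter_upwards [eventually_ge_atTop N] with n hn
  have hrn : (bump n).rOut < δ := by
    rw [bump_rOut]
    refine lt_of_le_of_lt ?_ hN
    apply one_div_le_one_div_of_le
    · positivity
    · have : (N : ℝ) ≤ n := by exact_mod_cast hn
      linarith
  have hpt : ∀ z : ℂ, ‖(rho n ⋆[lsmul ℝ ℝ, volume] h) z - h z‖ ≤ η := by
    intro z
    rw [← dist_eq_norm]
    refine (bump n).dist_normed_convolution_le hc.aestronglyMeasurable ?_
    intro x hx
    refine (hδη ?_).le
    exact lt_trans (mem_ball.1 hx) hrn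
  rw [← eLpNorm_restrict_eq_of_support_subset (hsupp n)]
  refine (eLpNorm_le_of_ae_bound (ae_of_all _ hpt)).trans ?_
  rwa [Measure.restrict_apply_univ]

/-- Mollification converges in `L^q`. -/
theorem moll_Lq [CompleteSpace F] {q : ℝ≥0∞} (hq : 1 ≤ q) (hq' : q ≠ ⊤) {f : ℂ → F} (hf : MemLp f q volume) :
    Tendsto (fun n => eLpNorm (fun z => (rho n ⋆[lsmul ℝ ℝ, volume] f) z - f z) q volume)
      atTop (𝓝 0) := by
  rw [ENNReal.tendsto_nhds_zero]
  intro ε hε
  have hε3 : ε / 3 ≠ 0 := by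
    simp only [ne_eq, ENNReal.div_eq_zero_iff, not_or]
    exact ⟨hε.ne', by norm_num⟩
  obtain ⟨h, hs, hfh, hc, hh⟩ := hf.exists_hasCompactSupport_eLpNorm_sub_le hq' hε3
  have h1 := (ENNReal.tendsto_nhds_zero.1 (moll_cont (q := q) hc hs)) (ε / 3)
    (pos_iff_ne_zero.2 hε3)
  have hfl : LocallyIntegrable f volume := hf.locallyIntegrable hq
  have hhl : LocallyIntegrable h volume := hh.locallyIntegrable hq
  filter_upwards [h1] with n hn
  have hdec : (fun z => (rho n ⋆[lsmul ℝ ℝ, volume] f) z - f z) =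
      (rho n ⋆[lsmul ℝ ℝ, volume] (f - h)) +
        ((fun z => (rho n ⋆[lsmul ℝ ℝ, volume] h) z - h z) + (h - f)) := by
    funext z
    have hd : (rho n ⋆[lsmul ℝ ℝ, volume] (f - h)) z =
        (rho n ⋆[lsmul ℝ ℝ, volume] f) z - (rho n ⋆[lsmul ℝ ℝ, volume] h) z := by
      rw [convolution_def, convolution_def, convolution_def, ← integral_sub
        (rho_conv_exists hfl n z) (rho_conv_exists hhl n z)]
      refine integral_congr_ae (ae_of_all _ fun t => ?_)
      simp only [Pi.sub_apply, lsmul_apply, smul_sub]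
    simp only [Pi.add_apply, Pi.sub_apply, hd]
    abel
  have hm1 : AEStronglyMeasurable (rho n ⋆[lsmul ℝ ℝ, volume] (f - h)) volume :=
    (rho_conv_cont (hfl.sub hhl) n).aestronglyMeasurable
  have hm2 : AEStronglyMeasurable (fun z => (rho n ⋆[lsmul ℝ ℝ, volume] h) z - h z) volume :=
    ((rho_conv_cont hhl n).sub hc).aestronglyMeasurable
  have hm3 : AEStronglyMeasurable (h - f) volume := hc.aestronglyMeasurable.sub hf.1
  rw [hdec]
  calc _ ≤ eLpNorm (rho n ⋆[lsmul ℝ ℝ, volume] (f - h)) q volume +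
        eLpNorm ((fun z => (rho n ⋆[lsmul ℝ ℝ, volume] h) z - h z) + (h - f)) q volume :=
        eLpNorm_add_le hm1 (hm2.add hm3) hq
    _ ≤ eLpNorm (rho n ⋆[lsmul ℝ ℝ, volume] (f - h)) q volume +
        (eLpNorm (fun z => (rho n ⋆[lsmul ℝ ℝ, volume] h) z - h z) q volume +
          eLpNorm (h - f) q volume) := by
        gcongr
        exact eLpNorm_add_le hm2 hm3 hq
    _ ≤ ε / 3 + (ε / 3 + ε / 3) := by
        gcongr
        · exact (young_enorm hq hq' (rho_cont n) (rho_nonneg n) (rho_integrable n)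
            (rho_integral n) (hf.1.sub hh.1)).trans hfh
        · rw [← eLpNorm_neg, neg_sub]; exact hfh
    _ = ε := by
        rw [← add_assoc]
        exact ENNReal.add_thirds ε


theorem locLp_integrableOn {q : ℝ≥0∞} (hq : 1 ≤ q) {U K : Set ℂ} {g : ℂ → F} (hg : LocLp q U g)
    (hK : K ⊆ U) (hKc : IsCompact K) : IntegrableOn g K volume := by
  have hfin : IsFiniteMeasure (volume.restrict K) := isFiniteMeasure_restrict.2 hKc.measure_lt_top.ne
  exact (hg K hK hKc).integrable hq

theorem locLp_meas {q : ℝ≥0∞} (hq : 1 ≤ q) {U : Set ℂ} (hU : IsOpen U) {g : ℂ → F}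
    (hg : LocLp q U g) : AEStronglyMeasurable g (volume.restrict U) := by
  refine LocallyIntegrableOn.aestronglyMeasurable ?_
  rw [locallyIntegrableOn_iff hU.isLocallyClosed]
  intro K hK hKc
  exact locLp_integrableOn hq hg hK hKc

theorem ind_memLp {q : ℝ≥0∞} {U K : Set ℂ} {g : ℂ → F} (hg : LocLp q U g)
    (hK : K ⊆ U) (hKc : IsCompact K) : MemLp (K.indicator g) q volume :=
  (memLp_indicator_iff_restrict hKc.measurableSet).2 (hg K hK hKc)

/-- The derivative of the mollification is the mollification of the weak derivative. -/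
theorem fderiv_moll [CompleteSpace F] {q : ℝ≥0∞} (hq : 1 ≤ q) {U K' : Set ℂ}
    {g : ℂ → F} {D : ℂ → ℂ →L[ℝ] F} (hg : LocLp q U g) (hD : LocLp q U D)
    (hw : ∀ φ : ℂ → ℝ, IsTest U φ → ∀ v : ℂ,
      ∫ z, fderiv ℝ φ z v • g z = - ∫ z, φ z • D z v)
    (hK'U : K' ⊆ U) (hK'c : IsCompact K') (n : ℕ) {z : ℂ}
    (hz : closedBall z (1 / ((n : ℝ) + 1)) ⊆ K') :
    fderiv ℝ (rho n ⋆[lsmul ℝ ℝ, volume] (K'.indicator g)) z =
      (rho n ⋆[lsmul ℝ ℝ, volume] (K'.indicator D)) z := by
  have hgl : LocallyIntegrable (K'.indicator g) volume := (ind_memLp hg hK'U hK'c).locallyIntegrable hq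
  have hDl : LocallyIntegrable (K'.indicator D) volume := (ind_memLp hD hK'U hK'c).locallyIntegrable hq
  have hfd : HasFDerivAt (rho n ⋆[lsmul ℝ ℝ, volume] (K'.indicator g))
      ((fderiv ℝ (rho n) ⋆[(lsmul ℝ ℝ : ℝ →L[ℝ] F →L[ℝ] F).precompL ℂ, volume]
        (K'.indicator g)) z) z :=
    (rho_compact n).hasFDerivAt_convolution_left _ ((rho_contDiff n).of_le (by exact_mod_cast le_top))
      hgl z
  rw [hfd.fderiv]
  have hex1 : ConvolutionExistsAt (fderiv ℝ (rho n)) (K'.indicator g) z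
      ((lsmul ℝ ℝ : ℝ →L[ℝ] F →L[ℝ] F).precompL ℂ) volume :=
    ((rho_compact n).fderiv ℝ).convolutionExists_left _
      ((rho_contDiff n).continuous_fderiv (by norm_num)) hgl z
  have hex2 := rho_conv_exists hDl n z
  ext v
  rw [convolution_def, convolution_def, ContinuousLinearMap.integral_apply hex1,
    ContinuousLinearMap.integral_apply hex2]
  simp only [precompL_apply, lsmul_apply, smul_apply]
  rw [← integral_sub_left_eq_self (fun t => (fderiv ℝ (rho n) t) v • K'.indicator g (z - t))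
    volume z, ← integral_sub_left_eq_self (fun t => rho n t • (K'.indicator D (z - t)) v) volume z]
  simp only [sub_sub_cancel]
  -- the test function
  set φ : ℂ → ℝ := fun t => rho n (z - t) with hφ
  have hφd : ContDiff ℝ ∞ φ := (rho_contDiff n).comp (contDiff_const.sub contDiff_id)
  have hφ0 : ∀ t, t ∉ closedBall z (1 / ((n : ℝ) + 1)) → φ t = 0 := by
    intro t ht
    apply rho_zero
    rw [mem_closedBall, dist_comm, dist_eq_norm] at ht
    exact not_le.1 ht
  have hφs : tsupport φ ⊆ closedBall z (1 / ((n : ℝ) + 1)) := by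
    apply closure_minimal _ isClosed_closedBall
    intro t ht
    by_contra hne
    exact ht (hφ0 t hne)
  have hφt : IsTest U φ := by
    refine ⟨hφd, ?_, ?_⟩
    · exact (isCompact_closedBall z _).of_isClosed_subset (isClosed_tsupport _) hφs
    · exact hφs.trans (hz.trans hK'U)
  have hfd2 : ∀ t, fderiv ℝ φ t v = - fderiv ℝ (rho n) (z - t) v := by
    intro t
    have h1 : HasFDerivAt (fun t : ℂ => z - t) (-(ContinuousLinearMap.id ℝ ℂ)) t := by
      exact (hasFDerivAt_id (𝕜 := ℝ) t).const_sub z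
    have h2 : HasFDerivAt (rho n) (fderiv ℝ (rho n) (z - t)) (z - t) :=
      ((rho_contDiff n).differentiable (by norm_num) _).hasFDerivAt
    have h3 : HasFDerivAt φ ((fderiv ℝ (rho n) (z - t)).comp (-(ContinuousLinearMap.id ℝ ℂ))) t :=
      h2.comp t h1
    rw [h3.fderiv]
    simp
  have hmain := hw φ hφt v
  have e1 : ∫ t, (fderiv ℝ (rho n) (z - t)) v • K'.indicator g t = - ∫ t, fderiv ℝ φ t v • g t := by
    rw [← integral_neg]
    refine integral_congr_ae (ae_of_all _ fun t => ?_)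
    simp only [hfd2, neg_smul, neg_neg]
    by_cases ht : t ∈ K'
    · rw [indicator_of_mem ht]
    · rw [indicator_of_notMem ht, smul_zero]
      have h4 : fderiv ℝ φ t v = 0 := by
        have h5 : t ∉ tsupport φ := fun h => ht (hz (hφs h))
        have h6 : fderiv ℝ φ t = 0 := by
          by_contra hne
          exact h5 (support_fderiv_subset ℝ hne)
        rw [h6]; rfl
      rw [hfd2, neg_eq_zero] at h4
      rw [h4, zero_smul]
  have e2 : ∫ t, rho n (z - t) • (K'.indicator D t) v = ∫ t, φ t • D t v := by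
    refine integral_congr_ae (ae_of_all _ fun t => ?_)
    simp only [hφ]
    by_cases ht : t ∈ K'
    · rw [indicator_of_mem ht]
    · have h5 : φ t = 0 := hφ0 t (fun h => ht (hz h))
      simp only [hφ] at h5
      rw [h5, zero_smul, zero_smul]
  rw [e1, e2, hmain, neg_neg]

/-- A1. A function with weak derivative in `L^q_loc` is a limit of smooth functions. -/
theorem sob_of_weak' [CompleteSpace F] {q : ℝ≥0∞} (hq : 1 ≤ q) (hq' : q ≠ ⊤) {U : Set ℂ}
    (hU : IsOpen U) {g : ℂ → F} {D : ℂ → ℂ →L[ℝ] F} (hg : LocLp q U g) (hD : LocLp q U D)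
    (hw : ∀ φ : ℂ → ℝ, IsTest U φ → ∀ v : ℂ,
      ∫ z, fderiv ℝ φ z v • g z = - ∫ z, φ z • D z v) :
    Sob q U g D := by
  refine ⟨locLp_meas hq hU hg, locLp_meas hq hU hD, ?_⟩
  intro K hK hKc
  obtain ⟨δ, hδ, hδU⟩ := hKc.exists_cthickening_subset_open hU hK
  set K' := cthickening δ K with hK'
  have hK'c : IsCompact K' := hKc.cthickening
  have hKK' : K ⊆ K' := self_subset_cthickening K
  obtain ⟨N, hN⟩ := exists_nat_one_div_lt hδ
  have hg' := ind_memLp hg hδU hK'c
  have hD' := ind_memLp hD hδU hK'c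
  have hgl : LocallyIntegrable (K'.indicator g) volume := hg'.locallyIntegrable hq
  have hsub : ∀ {G : Type _} [NormedAddCommGroup G] (f : ℂ → G) (h : ℂ → G) (n : ℕ),
      (∀ z ∈ K, f z = h z) → eLpNorm f q (volume.restrict K) ≤ eLpNorm h q volume := by
    intro G _ f h n hfh
    calc eLpNorm f q (volume.restrict K) = eLpNorm h q (volume.restrict K) := by
          apply eLpNorm_congr_ae
          filter_upwards [ae_restrict_mem hKc.measurableSet] with z hz
          exact hfh z hz
      _ ≤ eLpNorm h q volume := eLpNorm_mono_measure _ Measure.restrict_le_self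
  refine ⟨fun n => rho (n + N) ⋆[lsmul ℝ ℝ, volume] (K'.indicator g), ?_, ?_, ?_⟩
  · intro n
    exact (rho_compact _).contDiff_convolution_left _ (rho_contDiff _) hgl
  · have h1 := (moll_Lq hq hq' hg').comp (tendsto_add_atTop_nat N)
    refine tendsto_of_tendsto_of_tendsto_of_le_of_le tendsto_const_nhds h1 (fun _ => zero_le) ?_
    intro n
    refine hsub _ _ n ?_
    intro z hz
    simp only [indicator_of_mem (hKK' hz)]
  · have h1 := (moll_Lq hq hq' hD').comp (tendsto_add_atTop_nat N)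
    refine tendsto_of_tendsto_of_tendsto_of_le_of_le tendsto_const_nhds h1 (fun _ => zero_le) ?_
    intro n
    refine hsub _ _ n ?_
    intro z hz
    simp only [indicator_of_mem (hKK' hz)]
    rw [fderiv_moll hq hg hD hw hδU hK'c]
    intro w hw'
    refine mem_cthickening_of_dist_le w z _ _ hz ?_
    refine (mem_closedBall.1 hw').trans (le_trans ?_ hN.le)
    apply one_div_le_one_div_of_le
    · positivity
    · push_cast; linarith [(Nat.cast_nonneg n : (0 : ℝ) ≤ n)]


/-- A1. A function with weak derivative in `L^q_loc` is a limit of smooth functions. -/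
theorem sob_of_weak {E : Type*} [NormedAddCommGroup E] [NormedSpace ℝ E] [FiniteDimensional ℝ E]
    {q : ℝ≥0∞} (hq : 1 ≤ q) (hq' : q ≠ ⊤) {U : Set ℂ}
    (hU : IsOpen U) {g : ℂ → E} {D : ℂ → ℂ →L[ℝ] E} (hg : LocLp q U g) (hD : LocLp q U D)
    (hw : ∀ φ : ℂ → ℝ, IsTest U φ → ∀ v : ℂ,
      ∫ z, fderiv ℝ φ z v • g z = - ∫ z, φ z • D z v) :
    Sob q U g D := by
  have : CompleteSpace E := FiniteDimensional.complete ℝ E
  exact sob_of_weak' hq hq' hU hg hD hw

end Pool.Agent.H12.PH
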