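import Pool.Agent.H52.PH.Defs
import Pool.Agent.H12.PH.Moll

open MeasureTheory Set Metric Filter Topology ContDiff Complex
open scoped ENNReal ComplexConjugate Convolution

namespace Pool.Agent.H12.PH

open Pool.Agent.H52.PH ContinuousLinearMap

/-- Riesz representation for a functional factoring through a linear map into a Hilbert space. -/
theorem riesz_factor {V H : Type*} [AddCommGroup V] [Module ℝ V] [NormedAddCommGroup H]
    [InnerProductSpace ℝ H] [CompleteSpace H] (T : V →ₗ[ℝ] H) (L : V →ₗ[ℝ] ℝ) (C : ℝ)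
    (hL : ∀ v, |L v| ≤ C * ‖T v‖) : ∃ h : H, ∀ v, L v = inner ℝ h (T v) := by
  have hker : LinearMap.ker T ≤ LinearMap.ker L := by
    intro v hv
    rw [LinearMap.mem_ker] at hv ⊢
    have := hL v
    rw [hv, norm_zero, mul_zero] at this
    exact abs_nonpos_iff.1 this
  set L' : LinearMap.range T →ₗ[ℝ] ℝ :=
    ((LinearMap.ker T).liftQ L hker) ∘ₗ (T.quotKerEquivRange.symm : LinearMap.range T →ₗ[ℝ] _)
    with hL'
  have hL'v : ∀ v, L' ⟨T v, LinearMap.mem_range_self T v⟩ = L v := by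
    intro v
    have h1 : T.quotKerEquivRange.symm ⟨T v, LinearMap.mem_range_self T v⟩ =
        (LinearMap.ker T).mkQ v := by
      rw [LinearEquiv.symm_apply_eq]
      rfl
    simp only [hL', LinearMap.comp_apply, LinearEquiv.coe_coe, h1]
    rfl
  have hb : ∀ w : LinearMap.range T, ‖L' w‖ ≤ C * ‖w‖ := by
    rintro ⟨w, v, rfl⟩
    rw [hL'v, Real.norm_eq_abs]
    exact hL v
  obtain ⟨f, hf, -⟩ := _root_.exists_extension_norm_eq (LinearMap.range T) (L'.mkContinuous C hb)
  refine ⟨(InnerProductSpace.toDual ℝ H).symm f, fun v => ?_⟩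
  rw [InnerProductSpace.toDual_symm_apply]
  have h2 := hf ⟨T v, LinearMap.mem_range_self T v⟩
  rw [LinearMap.mkContinuous_apply, hL'v] at h2
  exact h2.symm

/-- The space of test functions. -/
def testSub (U : Set ℂ) : Submodule ℝ (ℂ → ℝ) where
  carrier := {φ | IsTest U φ}
  add_mem' := by
    rintro φ ψ ⟨h1, h2, h3⟩ ⟨h4, h5, h6⟩
    refine ⟨h1.add h4, h2.add h5, ?_⟩
    exact (tsupport_add φ ψ).trans (union_subset h3 h6)
  zero_mem' := by
    refine ⟨contDiff_const, HasCompactSupport.zero, ?_⟩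
    simp [tsupport]
  smul_mem' := by
    rintro c φ ⟨h1, h2, h3⟩
    refine ⟨h1.const_smul c, ?_, ?_⟩
    · exact h2.mono (Function.support_const_smul_subset c φ)
    · exact (closure_mono (Function.support_const_smul_subset c φ)).trans h3

theorem test_memLp {U : Set ℂ} {φ : ℂ → ℝ} (hφ : IsTest U φ) (q : ℝ≥0∞) : MemLp φ q volume :=
  hφ.1.continuous.memLp_of_hasCompactSupport hφ.2.1

/-- The embedding of test functions in `L²`. -/
noncomputable def testT (U : Set ℂ) : testSub U →ₗ[ℝ] Lp ℝ 2 (volume : Measure ℂ) where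
  toFun φ := (test_memLp φ.2 2).toLp φ.1
  map_add' := by
    rintro ⟨φ, hφ⟩ ⟨ψ, hψ⟩
    rfl
  map_smul' := by
    rintro c ⟨φ, hφ⟩
    rfl

theorem fderiv_supp {φ : ℂ → ℝ} {t : ℂ} (ht : t ∉ tsupport φ) : fderiv ℝ φ t = 0 := by
  by_contra hne
  exact ht (support_fderiv_subset ℝ hne)

theorem fderiv_smul_integrable {F : Type*} [NormedAddCommGroup F] [NormedSpace ℝ F] {U : Set ℂ}
    {g : ℂ → F} {q : ℝ≥0∞} (hq : 1 ≤ q) (hg : LocLp q U g) {φ : ℂ → ℝ}
    (hφ : IsTest U φ) (v : ℂ) : Integrable (fun z => fderiv ℝ φ z v • g z) volume := by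
  have h1 : IntegrableOn g (tsupport φ) volume := locLp_integrableOn hq hg hφ.2.2 hφ.2.1
  have hc : Continuous (fun z => fderiv ℝ φ z v) :=
    (hφ.1.continuous_fderiv (by norm_num)).clm_apply continuous_const
  have h2 : IntegrableOn (fun z => fderiv ℝ φ z v • g z) (tsupport φ) volume :=
    h1.continuousOn_smul hc.continuousOn hφ.2.1
  rw [integrableOn_iff_integrable_of_support_subset] at h2
  · exact h2
  · intro z hz
    by_contra hne
    apply hz
    simp only [fderiv_supp hne, zero_apply, zero_smul]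

/-- The difference quotient bound. -/
theorem diffQuot_bound {U : Set ℂ} (hU : IsOpen U) {g : ℂ → ℂ} (hg : LocLp 2 U g)
    (C : ℝ≥0∞) (hC : C ≠ ⊤)
    (h : ∀ K ⊆ U, IsCompact K → ∃ δ > 0, ∀ e : ℂ, ‖e‖ < δ →
      ∫⁻ z in K, ‖g (z + e) - g z‖ₑ ^ 2 ≤ C * ‖e‖ₑ ^ 2)
    {φ : ℂ → ℝ} (hφ : IsTest U φ) (v : ℂ) :
    ‖∫ z, fderiv ℝ φ z v • g z‖ ≤
      (Real.sqrt C.toReal * (eLpNorm φ 2 volume).toReal) * ‖v‖ := by
  obtain ⟨hφd, hφc, hφU⟩ := hφ
  set K := tsupport φ with hK
  have hKc : IsCompact K := hφc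
  obtain ⟨δ', hδ', hδU⟩ := hKc.exists_cthickening_subset_open hU hφU
  obtain ⟨δ, hδ, hδb⟩ := h K hφU hKc
  set K' := cthickening δ' K with hK'
  have hK'c : IsCompact K' := hKc.cthickening
  have hKK' : K ⊆ K' := self_subset_cthickening K
  set g' : ℂ → ℂ := K'.indicator g with hg'
  have hg'2 : MemLp g' 2 volume := ind_memLp hg hδU hK'c
  have hg'l : LocallyIntegrable g' volume := hg'2.locallyIntegrable (by norm_num)
  set ψ : ℂ → ℝ := fun z => φ (-z) with hψ
  have hψd : ContDiff ℝ ∞ ψ := hφd.comp contDiff_neg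
  have hψc : HasCompactSupport ψ := hφc.comp_homeomorph (Homeomorph.neg ℂ)
  set G : ℂ → ℂ := ψ ⋆[lsmul ℝ ℝ, volume] g' with hG
  have hGd : HasFDerivAt G ((fderiv ℝ ψ ⋆[(lsmul ℝ ℝ : ℝ →L[ℝ] ℂ →L[ℝ] ℂ).precompL ℂ, volume]
        g') 0) 0 :=
    hψc.hasFDerivAt_convolution_left _ (hψd.of_le (by exact_mod_cast le_top)) hg'l 0
  have hGx : ∀ x, G x = ∫ s, φ s • g' (x + s) := by
    intro x
    rw [hG, convolution_def, ← integral_neg_eq_self]
    simp only [hψ, neg_neg, lsmul_apply, sub_neg_eq_add]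
  -- Lipschitz bound at 0
  have hlip : ∀ᶠ x in 𝓝 (0 : ℂ), ‖G x - G 0‖ ≤
      (Real.sqrt C.toReal * (eLpNorm φ 2 volume).toReal) * ‖x - 0‖ := by
    filter_upwards [Metric.ball_mem_nhds (0 : ℂ) (lt_min hδ hδ')] with x hx
    rw [mem_ball, dist_zero_right] at hx
    have hxδ : ‖x‖ < δ := lt_of_lt_of_le hx (min_le_left _ _)
    have hxδ' : ‖x‖ < δ' := lt_of_lt_of_le hx (min_le_right _ _)
    have hint : ∀ y : ℂ, Integrable (fun s => φ s • g' (y + s)) volume := by
      intro y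
      have h1 : LocallyIntegrable (fun s => g' (y + s)) volume := by
        have h2 : MemLp (fun s => g' (y + s)) 2 volume :=
          hg'2.comp_measurePreserving (measurePreserving_add_left volume y)
        exact h2.locallyIntegrable (by norm_num)
      exact h1.integrable_smul_left_of_hasCompactSupport hφd.continuous hφc
    have hdiff : G x - G 0 = ∫ s, φ s • (g' (x + s) - g' s) := by
      rw [hGx, hGx, ← integral_sub (hint x) (hint 0)]
      refine integral_congr_ae (ae_of_all _ fun s => ?_)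
      simp only [zero_add, smul_sub]
    have henorm : ‖G x - G 0‖ₑ ≤ eLpNorm φ 2 volume * (C ^ (1 / 2 : ℝ) * ‖x‖ₑ) := by
      rw [hdiff]
      refine (enorm_integral_le_lintegral_enorm _).trans ?_
      have e1 : ∫⁻ s, ‖φ s • (g' (x + s) - g' s)‖ₑ =
          ∫⁻ s in K, ‖φ s‖ₑ * ‖g' (x + s) - g' s‖ₑ := by
        rw [← lintegral_indicator hKc.measurableSet]
        refine lintegral_congr fun s => ?_
        by_cases hs : s ∈ K
        · rw [indicator_of_mem hs, enorm_smul]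
        · rw [indicator_of_notMem hs, image_eq_zero_of_notMem_tsupport hs, zero_smul, enorm_zero]
      rw [e1]
      have hm1 : AEMeasurable (fun s => ‖φ s‖ₑ) (volume.restrict K) :=
        (hφd.continuous.aestronglyMeasurable.enorm).restrict
      have hm2 : AEMeasurable (fun s => ‖g' (x + s) - g' s‖ₑ) (volume.restrict K) := by
        have h2 : AEStronglyMeasurable (fun s => g' (x + s)) volume :=
          (hg'2.comp_measurePreserving (measurePreserving_add_left volume x)).1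
        exact (h2.sub hg'2.1).enorm.restrict
      have hcs := ENNReal.lintegral_mul_le_Lp_mul_Lq (volume.restrict K)
        Real.HolderConjugate.two_two hm1 hm2
      refine hcs.trans ?_
      gcongr ?_ * ?_
      · rw [eLpNorm_eq_lintegral_rpow_enorm_toReal (by norm_num) (by norm_num)]
        simp only [ENNReal.toReal_ofNat]
        refine ENNReal.rpow_le_rpow ?_ (by norm_num)
        exact setLIntegral_le_lintegral K _
      · have e2 : ∫⁻ s in K, ‖g' (x + s) - g' s‖ₑ ^ (2 : ℝ) =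
            ∫⁻ s in K, ‖g (s + x) - g s‖ₑ ^ 2 := by
          refine setLIntegral_congr_fun hKc.measurableSet fun s hs => ?_
          have h1 : s ∈ K' := hKK' hs
          have h2 : x + s ∈ K' := by
            refine mem_cthickening_of_dist_le (x + s) s _ _ hs ?_
            rw [dist_eq_norm]; simpa using hxδ'.le
          simp only [hg', indicator_of_mem h1, indicator_of_mem h2]
          rw [add_comm x s]
          exact_mod_cast ENNReal.rpow_natCast _ 2
        rw [e2]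
        calc (∫⁻ s in K, ‖g (s + x) - g s‖ₑ ^ 2) ^ (1 / 2 : ℝ)
            ≤ (C * ‖x‖ₑ ^ 2) ^ (1 / 2 : ℝ) := ENNReal.rpow_le_rpow (hδb x hxδ) (by norm_num)
          _ = C ^ (1 / 2 : ℝ) * ‖x‖ₑ := by
            rw [ENNReal.mul_rpow_of_nonneg _ _ (by norm_num), ← ENNReal.rpow_natCast,
              ← ENNReal.rpow_mul]
            norm_num
    have hφfin : eLpNorm φ 2 volume ≠ ⊤ :=
      (hφd.continuous.memLp_of_hasCompactSupport hφc).2.ne
    have hCfin : C ^ (1 / 2 : ℝ) ≠ ⊤ := (ENNReal.rpow_lt_top_of_nonneg (by norm_num) hC).ne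
    have h5 := ENNReal.toReal_mono (ENNReal.mul_ne_top hφfin (ENNReal.mul_ne_top hCfin
      enorm_ne_top)) henorm
    rw [toReal_enorm, ENNReal.toReal_mul, ENNReal.toReal_mul, toReal_enorm, ← ENNReal.toReal_rpow,
      ← Real.sqrt_eq_rpow] at h5
    rw [sub_zero]
    calc ‖G x - G 0‖ ≤ _ := h5
      _ = _ := by ring
  have hnorm := hGd.le_of_lip' (by positivity) hlip
  have hval : ((fderiv ℝ ψ ⋆[(lsmul ℝ ℝ : ℝ →L[ℝ] ℂ →L[ℝ] ℂ).precompL ℂ, volume] g') 0) v =
      - ∫ z, fderiv ℝ φ z v • g z := by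
    have hex1 : ConvolutionExistsAt (fderiv ℝ ψ) g' 0
        ((lsmul ℝ ℝ : ℝ →L[ℝ] ℂ →L[ℝ] ℂ).precompL ℂ) volume :=
      (hψc.fderiv ℝ).convolutionExists_left _ (hψd.continuous_fderiv (by norm_num)) hg'l 0
    rw [convolution_def, ContinuousLinearMap.integral_apply hex1]
    simp only [precompL_apply, lsmul_apply]
    rw [← integral_neg_eq_self, ← integral_neg]
    refine integral_congr_ae (ae_of_all _ fun s => ?_)
    simp only [zero_sub, neg_neg]
    have hfd2 : fderiv ℝ ψ (-s) v = - fderiv ℝ φ s v := by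
      have h1 : HasFDerivAt (fun t : ℂ => -t) (-(ContinuousLinearMap.id ℝ ℂ)) (-s) :=
        (hasFDerivAt_id (𝕜 := ℝ) (-s)).neg
      have h2 : HasFDerivAt φ (fderiv ℝ φ s) (- -s) := by
        rw [neg_neg]
        exact (hφd.differentiable (by norm_num) _).hasFDerivAt
      have h3 : HasFDerivAt ψ ((fderiv ℝ φ s).comp (-(ContinuousLinearMap.id ℝ ℂ))) (-s) :=
        h2.comp (-s) h1
      rw [h3.fderiv]
      simp
    rw [hfd2, neg_smul]
    by_cases hs : s ∈ K
    · rw [hg', indicator_of_mem (hKK' hs)]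
    · rw [fderiv_supp hs]
      simp
  calc ‖∫ z, fderiv ℝ φ z v • g z‖ = ‖((fderiv ℝ ψ ⋆[(lsmul ℝ ℝ : ℝ →L[ℝ] ℂ →L[ℝ] ℂ).precompL ℂ,
        volume] g') 0) v‖ := by rw [hval, norm_neg]
    _ ≤ ‖((fderiv ℝ ψ ⋆[(lsmul ℝ ℝ : ℝ →L[ℝ] ℂ →L[ℝ] ℂ).precompL ℂ, volume] g') 0)‖ * ‖v‖ :=
        ContinuousLinearMap.le_opNorm _ _
    _ ≤ _ := by gcongr


theorem testT_apply {U : Set ℂ} (φ : testSub U) (h : Lp ℝ 2 (volume : Measure ℂ)) :
    inner ℝ h (testT U φ) = ∫ z, φ.1 z * h z := by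
  rw [MeasureTheory.L2.inner_def]
  refine integral_congr_ae ?_
  have h1 : (testT U φ : ℂ → ℝ) =ᵐ[volume] φ.1 := (test_memLp φ.2 2).coeFn_toLp
  filter_upwards [h1] with z hz
  rw [hz]
  simp [mul_comm]

theorem testT_norm {U : Set ℂ} (φ : testSub U) :
    ‖testT U φ‖ = (eLpNorm φ.1 2 volume).toReal := by
  rw [Lp.norm_def]
  congr 1
  exact eLpNorm_congr_ae (test_memLp φ.2 2).coeFn_toLp

/-- The real functionals. -/
theorem real_rep {U : Set ℂ} {g : ℂ → ℂ} (hg : LocLp 2 U g) (p : ℂ →L[ℝ] ℝ) (v : ℂ) (M : ℝ)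
    (hp : ∀ w, |p w| ≤ ‖w‖)
    (hb : ∀ φ, IsTest U φ → ‖∫ z, fderiv ℝ φ z v • g z‖ ≤ M * (eLpNorm φ 2 volume).toReal) :
    ∃ h : ℂ → ℝ, MemLp h 2 volume ∧ ∀ φ, IsTest U φ →
      p (∫ z, fderiv ℝ φ z v • g z) = - ∫ z, φ z * h z := by
  set L : testSub U →ₗ[ℝ] ℝ :=
    { toFun := fun φ => - p (∫ z, fderiv ℝ φ.1 z v • g z)
      map_add' := by
        rintro ⟨φ, hφ⟩ ⟨ψ, hψ⟩
        have h1 := fderiv_smul_integrable (by norm_num) hg hφ v
        have h2 := fderiv_smul_integrable (by norm_num) hg hψ v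
        have h3 : ∀ z, fderiv ℝ (φ + ψ) z v • g z = fderiv ℝ φ z v • g z + fderiv ℝ ψ z v • g z := by
          intro z
          rw [fderiv_add (hφ.1.differentiable (by norm_num) z)
            (hψ.1.differentiable (by norm_num) z)]
          simp [add_smul]
        change -p (∫ z, fderiv ℝ (φ + ψ) z v • g z) =
          -p (∫ z, fderiv ℝ φ z v • g z) + -p (∫ z, fderiv ℝ ψ z v • g z)
        rw [integral_congr_ae (ae_of_all _ h3), integral_add h1 h2, map_add]
        ring
      map_smul' := by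
        rintro c ⟨φ, hφ⟩
        have h3 : ∀ z, fderiv ℝ (c • φ) z v • g z = c • (fderiv ℝ φ z v • g z) := by
          intro z
          rw [fderiv_const_smul (hφ.1.differentiable (by norm_num) z)]
          simp [mul_smul]
        change -p (∫ z, fderiv ℝ (c • φ) z v • g z) = c • -p (∫ z, fderiv ℝ φ z v • g z)
        rw [integral_congr_ae (ae_of_all _ h3), integral_smul, map_smul]
        simp } with hL
  have hLb : ∀ φ, |L φ| ≤ M * ‖testT U φ‖ := by
    rintro ⟨φ, hφ⟩
    rw [testT_norm]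
    simp only [hL, LinearMap.coe_mk, AddHom.coe_mk, abs_neg]
    exact (hp _).trans (hb φ hφ)
  obtain ⟨h, hh⟩ := riesz_factor (testT U) L M hLb
  refine ⟨h, Lp.memLp h, ?_⟩
  intro φ hφ
  have h1 := hh ⟨φ, hφ⟩
  rw [testT_apply] at h1
  simp only [hL, LinearMap.coe_mk, AddHom.coe_mk] at h1
  linarith

/-- A2. Bounded difference quotients in `L²` give a derivative in `L²`. -/
theorem sob_of_diffQuot {U : Set ℂ} (hU : IsOpen U) {g : ℂ → ℂ} (hg : LocLp 2 U g)
    (C : ℝ≥0∞) (hC : C ≠ ⊤)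
    (h : ∀ K ⊆ U, IsCompact K → ∃ δ > 0, ∀ e : ℂ, ‖e‖ < δ →
      ∫⁻ z in K, ‖g (z + e) - g z‖ₑ ^ 2 ≤ C * ‖e‖ₑ ^ 2) :
    ∃ D : ℂ → ℂ →L[ℝ] ℂ, Sob 2 U g D := by
  have hb : ∀ v : ℂ, ∀ φ, IsTest U φ → ‖∫ z, fderiv ℝ φ z v • g z‖ ≤
      (Real.sqrt C.toReal * ‖v‖) * (eLpNorm φ 2 volume).toReal := by
    intro v φ hφ
    refine (diffQuot_bound hU hg C hC h hφ v).trans (le_of_eq (by ring))
  -- complex representation
  have hrep : ∀ v : ℂ, ∃ d : ℂ → ℂ, MemLp d 2 volume ∧ ∀ φ, IsTest U φ →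
      ∫ z, fderiv ℝ φ z v • g z = - ∫ z, φ z • d z := by
    intro v
    obtain ⟨a, ha, ha'⟩ := real_rep hg reCLM v _ (fun w => abs_re_le_norm w) (hb v)
    obtain ⟨b, hb', hb''⟩ := real_rep hg imCLM v _ (fun w => abs_im_le_norm w) (hb v)
    have hd : MemLp (fun z => a z • (1 : ℂ) + b z • I) 2 volume :=
      ((toSpanSingleton ℝ (1 : ℂ)).comp_memLp' ha).add ((toSpanSingleton ℝ I).comp_memLp' hb')
    refine ⟨fun z => a z • (1 : ℂ) + b z • I, hd, ?_⟩
    intro φ hφ
    have hint : Integrable (fun z => φ z • (a z • (1 : ℂ) + b z • I)) volume :=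
      (hd.locallyIntegrable (by norm_num)).integrable_smul_left_of_hasCompactSupport
        hφ.1.continuous hφ.2.1
    apply Complex.ext
    · have h1 := ha' φ hφ
      rw [reCLM_apply] at h1
      rw [h1, neg_re]
      congr 1
      rw [← reCLM_apply, ← reCLM.integral_comp_comm hint]
      refine integral_congr_ae (ae_of_all _ fun z => ?_)
      simp
    · have h1 := hb'' φ hφ
      rw [imCLM_apply] at h1
      rw [h1, neg_im]
      congr 1
      rw [← imCLM_apply, ← imCLM.integral_comp_comm hint]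
      refine integral_congr_ae (ae_of_all _ fun z => ?_)
      simp
  obtain ⟨d1, hd1, hd1'⟩ := hrep 1
  obtain ⟨d2, hd2, hd2'⟩ := hrep I
  set D : ℂ → ℂ →L[ℝ] ℂ := fun z => smulRightL ℝ ℂ ℂ reCLM (d1 z) + smulRightL ℝ ℂ ℂ imCLM (d2 z)
    with hD
  have hDL : MemLp D 2 volume :=
    ((smulRightL ℝ ℂ ℂ reCLM).comp_memLp' hd1).add ((smulRightL ℝ ℂ ℂ imCLM).comp_memLp' hd2)
  have hDv : ∀ z v, D z v = v.re • d1 z + v.im • d2 z := by
    intro z v
    simp [hD]
  refine ⟨D, sob_of_weak (by norm_num) (by norm_num) hU hg (fun K _ _ => hDL.restrict K) ?_⟩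
  intro φ hφ v
  have hv : ∀ z, fderiv ℝ φ z v • g z =
      v.re • (fderiv ℝ φ z 1 • g z) + v.im • (fderiv ℝ φ z I • g z) := by
    intro z
    have h1 : v = v.re • (1 : ℂ) + v.im • I := by
      apply Complex.ext <;> simp
    conv_lhs => rw [h1]
    rw [map_add, map_smul, map_smul, add_smul, smul_assoc, smul_assoc]
  have i1 := fderiv_smul_integrable (by norm_num) hg hφ 1
  have i2 := fderiv_smul_integrable (by norm_num) hg hφ I
  have j1 : Integrable (fun z => φ z • d1 z) volume :=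
    (hd1.locallyIntegrable (by norm_num)).integrable_smul_left_of_hasCompactSupport
      hφ.1.continuous hφ.2.1
  have j2 : Integrable (fun z => φ z • d2 z) volume :=
    (hd2.locallyIntegrable (by norm_num)).integrable_smul_left_of_hasCompactSupport
      hφ.1.continuous hφ.2.1
  have hv2 : ∀ z, φ z • D z v = v.re • (φ z • d1 z) + v.im • (φ z • d2 z) := by
    intro z
    rw [hDv, smul_add, smul_comm, smul_comm (φ z) v.im]
  have i1' : Integrable (fun z => v.re • (fderiv ℝ φ z 1 • g z)) volume := i1.smul v.re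
  have i2' : Integrable (fun z => v.im • (fderiv ℝ φ z I • g z)) volume := i2.smul v.im
  have j1' : Integrable (fun z => v.re • (φ z • d1 z)) volume := j1.smul v.re
  have j2' : Integrable (fun z => v.im • (φ z • d2 z)) volume := j2.smul v.im
  rw [integral_congr_ae (ae_of_all _ hv), integral_congr_ae (ae_of_all _ hv2),
    integral_add i1' i2', integral_add j1' j2',
    integral_smul, integral_smul, integral_smul, integral_smul, hd1' φ hφ, hd2' φ hφ]
  rw [smul_neg, smul_neg, neg_add]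

end Pool.Agent.H12.PH
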